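import Pool.Agent.helper7.UL.Spec

set_option autoImplicit false

namespace Pool.Agent.UL

open Finset

/-- the order on the accumulators -/
def HIT_le (h h' : ℕ × Bool) : Prop :=
  (∀ β, h.1.testBit β = true → h'.1.testBit β = true) ∧ (h.2 = true → h'.2 = true)

theorem HIT_le_refl (h : ℕ × Bool) : HIT_le h h := ⟨fun _ h => h, fun h => h⟩

theorem HIT_le_trans {a b c : ℕ × Bool} (h : HIT_le a b) (h' : HIT_le b c) : HIT_le a c :=
  ⟨fun β x => h'.1 β (h.1 β x), fun x => h'.2 (h.2 x)⟩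

/-- the mark of a pair -/
def HIT_mk (M ε β : ℕ) (c d : Wd) : Prop :=
  M.testBit β = true ∧ ((∃ s ∈ c.al, d.wd.testBit (β + s + ε) = true) ∨
    (c.r = true ∧ d.l = true) ∨ (c.l = true ∧ d.r = true))

/-- the flag of a pair -/
def HIT_fl (c d : Wd) : Prop := c.al ≠ [] ∧ d.r = true

theorem HIT_hitP (h1 : CVL_stmt) (M ε : ℕ) (c d : Wd) (h : ℕ × Bool) :
    HIT_le h (hitP M ε c d h) ∧
    (∀ β, HIT_mk M ε β c d → (hitP M ε c d h).1.testBit β = true) ∧
    (HIT_fl c d → (hitP M ε c d h).2 = true) := by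
  refine ⟨⟨?_, ?_⟩, ?_, ?_⟩
  · intro β hβ
    unfold hitP
    simp only [Nat.testBit_or, Bool.or_eq_true]
    left
    exact ((h1 0 M d.wd ε β c.al (h.1, 0)).2.1).2 (Or.inl hβ)
  · intro hh
    unfold hitP
    simp only [hh, Bool.true_or]
  · rintro β ⟨hM, hβ⟩
    unfold hitP
    simp only [Nat.testBit_or, Bool.or_eq_true]
    rcases hβ with hβ | hβ | hβ
    · left
      exact ((h1 0 M d.wd ε β c.al (h.1, 0)).2.1).2 (Or.inr ⟨hM, hβ⟩)
    · right
      rw [if_pos (by simp [hβ.1, hβ.2])]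
      exact hM
    · right
      rw [if_pos (by simp [hβ.1, hβ.2])]
      exact hM
  · rintro ⟨ha, hd⟩
    unfold hitP
    have : c.al.isEmpty = false := by
      cases hc : c.al with
      | nil => exact absurd hc ha
      | cons _ _ => rfl
    simp [this, hd]

theorem HIT_row (h1 : CVL_stmt) (M ε : ℕ) : ∀ (cs ds : List Wd) (h : ℕ × Bool),
    HIT_le h (hitRow M ε cs ds h) ∧
    ∀ (k : ℕ) (c d : Wd), cs[k]? = some c → ds[k]? = some d →
      (∀ β, HIT_mk M ε β c d → (hitRow M ε cs ds h).1.testBit β = true) ∧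
      (HIT_fl c d → (hitRow M ε cs ds h).2 = true)
  | [], _, h => by
    refine ⟨by unfold hitRow; exact HIT_le_refl h, ?_⟩
    intro k c d hc
    simp at hc
  | c' :: cs, [], h => by
    refine ⟨by unfold hitRow; exact HIT_le_refl h, ?_⟩
    intro k c d _ hd
    simp at hd
  | c' :: cs, d' :: ds, h => by
    have ih := HIT_row h1 M ε cs ds (hitP M ε c' d' h)
    have hp := HIT_hitP h1 M ε c' d' h
    have e : hitRow M ε (c' :: cs) (d' :: ds) h = hitRow M ε cs ds (hitP M ε c' d' h) := rfl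
    rw [e]
    refine ⟨HIT_le_trans hp.1 ih.1, ?_⟩
    intro k c d hc hd
    cases k with
    | zero =>
      simp only [List.getElem?_cons_zero, Option.some.injEq] at hc hd
      subst hc hd
      exact ⟨fun β hβ => ih.1.1 β (hp.2.1 β hβ), fun hf => ih.1.2 (hp.2.2 hf)⟩
    | succ k =>
      simp only [List.getElem?_cons_succ] at hc hd
      exact ih.2 k c d hc hd

theorem HIT_all (h1 : CVL_stmt) (R A J : ℕ) : ∀ (hs rs : List (List Wd)) (A1 : ℕ) (acc : ℕ × Bool),
    HIT_le acc (hitAll R A J A1 hs rs acc) ∧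
    ∀ (t : ℕ) (h ra rb : List Wd), hs[t]? = some h → rs[t]? = some ra → rs[t + 1]? = some rb → A1 + t ≤ A →
      (∃ acc', HIT_le (hitRow (fm R) 0 (h.take (J + 1)) (ra.take (J + 1)).reverse acc')
        (hitAll R A J A1 hs rs acc)) ∧
      (A1 + t + 1 ≤ A → ∃ acc', HIT_le (hitRow (fm R) 1 (h.drop (J + 1)) (rb.drop (J + 1)).reverse acc')
        (hitAll R A J A1 hs rs acc))
  | [], _, A1, acc => by
    refine ⟨by unfold hitAll; exact HIT_le_refl acc, ?_⟩
    intro t h ra rb ht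
    simp at ht
  | _ :: _, [], A1, acc => by
    refine ⟨by unfold hitAll; exact HIT_le_refl acc, ?_⟩
    intro t h ra rb _ ht
    simp at ht
  | _ :: _, [_], A1, acc => by
    refine ⟨by unfold hitAll; exact HIT_le_refl acc, ?_⟩
    intro t h ra rb _ _ ht
    simp at ht
  | h' :: hs, ra' :: rb' :: rs, A1, acc => by
    have e : hitAll R A J A1 (h' :: hs) (ra' :: rb' :: rs) acc =
      (if A < A1 then acc else
        hitAll R A J (A1 + 1) hs (rb' :: rs)
          (if A1 + 1 ≤ A then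
            hitRow (fm R) 1 (h'.drop (J + 1)) (rb'.drop (J + 1)).reverse
              (hitRow (fm R) 0 (h'.take (J + 1)) (ra'.take (J + 1)).reverse acc)
          else hitRow (fm R) 0 (h'.take (J + 1)) (ra'.take (J + 1)).reverse acc)) := rfl
    rw [e]
    by_cases hA : A < A1
    · rw [if_pos hA]
      refine ⟨HIT_le_refl acc, ?_⟩
      intro t h ra rb _ _ _ ht
      omega
    · rw [if_neg hA]
      have r0 := HIT_row h1 (fm R) 0 (h'.take (J + 1)) (ra'.take (J + 1)).reverse acc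
      have r1 := HIT_row h1 (fm R) 1 (h'.drop (J + 1)) (rb'.drop (J + 1)).reverse
        (hitRow (fm R) 0 (h'.take (J + 1)) (ra'.take (J + 1)).reverse acc)
      have hle : HIT_le (hitRow (fm R) 0 (h'.take (J + 1)) (ra'.take (J + 1)).reverse acc)
          (if A1 + 1 ≤ A then
            hitRow (fm R) 1 (h'.drop (J + 1)) (rb'.drop (J + 1)).reverse
              (hitRow (fm R) 0 (h'.take (J + 1)) (ra'.take (J + 1)).reverse acc)
          else hitRow (fm R) 0 (h'.take (J + 1)) (ra'.take (J + 1)).reverse acc) := by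
        by_cases hA1 : A1 + 1 ≤ A
        · rw [if_pos hA1]; exact r1.1
        · rw [if_neg hA1]; exact HIT_le_refl _
      have ih := HIT_all h1 R A J hs (rb' :: rs) (A1 + 1)
        (if A1 + 1 ≤ A then
            hitRow (fm R) 1 (h'.drop (J + 1)) (rb'.drop (J + 1)).reverse
              (hitRow (fm R) 0 (h'.take (J + 1)) (ra'.take (J + 1)).reverse acc)
          else hitRow (fm R) 0 (h'.take (J + 1)) (ra'.take (J + 1)).reverse acc)
      refine ⟨HIT_le_trans r0.1 (HIT_le_trans hle ih.1), ?_⟩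
      intro t h ra rb ht hra hrb hAt
      cases t with
      | zero =>
        simp only [List.getElem?_cons_zero, List.getElem?_cons_succ, Option.some.injEq, zero_add]
          at ht hra hrb
        subst ht hra hrb
        refine ⟨⟨acc, HIT_le_trans hle ih.1⟩, ?_⟩
        intro hA1
        refine ⟨hitRow (fm R) 0 (h'.take (J + 1)) (ra'.take (J + 1)).reverse acc, HIT_le_trans ?_ ih.1⟩
        rw [if_pos (show A1 + 1 ≤ A by omega)]
        exact HIT_le_refl _
      | succ t =>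
        simp only [List.getElem?_cons_succ] at ht hra hrb
        have := ih.2 t h ra rb ht hra hrb (by omega)
        refine ⟨this.1, fun hA1 => this.2 (by omega)⟩

theorem HIT_rowW (R o A j : ℕ) (hj : j < o) : (rowW R o A)[j]? = some (mkW R (cell R o j A)) := by
  unfold rowW
  rw [List.getElem?_map, List.getElem?_range hj]
  rfl

theorem HIT_rowW_len (R o A : ℕ) : (rowW R o A).length = o := by
  unfold rowW; simp

/-- every pair occurs -/
theorem HIT_pair (h1 : CVL_stmt) (R o X A J : ℕ) (hJ : J < o) (hAX : A ≤ X) (A1 A2 j1 j2 ε : ℕ)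
    (hε : ε ≤ 1) (hj1 : j1 < o) (hj2 : j2 < o) (hj : j1 + j2 = J + ε * o) (hA : A1 + A2 + ε = A) :
    (∀ β, HIT_mk (fm R) ε β (mkW R (cell R o j1 A1)) (mkW R (cell R o j2 A2)) →
      (hitAll R A J 0 (headW R o X) (recW R o X A) (0, false)).1.testBit β = true) ∧
    (HIT_fl (mkW R (cell R o j1 A1)) (mkW R (cell R o j2 A2)) →
      (hitAll R A J 0 (headW R o X) (recW R o X A) (0, false)).2 = true) := by
  have hall := (HIT_all h1 R A J (headW R o X) (recW R o X A) 0 (0, false)).2 A1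
    (rowW R o A1) (rowW R o (A - A1))
    (if A1 + 1 ≤ A then rowW R o (A - (A1 + 1)) else List.replicate o (mkW R 0))
    (by
      unfold headW
      rw [List.getElem?_map, List.getElem?_range (by omega)]
      rfl)
    (by
      unfold recW
      rw [List.getElem?_map, List.getElem?_range (by omega)]
      simp only [Option.map_some]
      rw [if_pos (by omega)])
    (by
      unfold recW
      rw [List.getElem?_map, List.getElem?_range (by omega)]
      rfl) (by omega)
  interval_cases ε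
  · obtain ⟨acc', hacc⟩ := hall.1
    have hr := (HIT_row h1 (fm R) 0 ((rowW R o A1).take (J + 1)) ((rowW R o (A - A1)).take (J + 1)).reverse
      acc').2 j1 (mkW R (cell R o j1 A1)) (mkW R (cell R o j2 A2))
      (by
        rw [List.getElem?_take_of_lt (by omega)]
        exact HIT_rowW R o A1 j1 hj1)
      (by
        rw [List.getElem?_reverse (by simp [HIT_rowW_len]; omega)]
        rw [List.length_take, HIT_rowW_len]
        have e : min (J + 1) o - 1 - j1 = j2 := by omega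
        rw [e, List.getElem?_take_of_lt (by omega), HIT_rowW R o _ j2 hj2]
        have e2 : A - A1 = A2 := by omega
        rw [e2])
    exact ⟨fun β hβ => hacc.1 β (hr.1 β hβ), fun hf => hacc.2 (hr.2 hf)⟩
  · obtain ⟨acc', hacc⟩ := hall.2 (by omega)
    rw [if_pos (by omega)] at hacc
    have hr := (HIT_row h1 (fm R) 1 ((rowW R o A1).drop (J + 1))
      ((rowW R o (A - (A1 + 1))).drop (J + 1)).reverse
      acc').2 (j1 - (J + 1)) (mkW R (cell R o j1 A1)) (mkW R (cell R o j2 A2))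
      (by
        rw [List.getElem?_drop]
        have e : J + 1 + (j1 - (J + 1)) = j1 := by omega
        rw [e]
        exact HIT_rowW R o A1 j1 hj1)
      (by
        rw [List.getElem?_reverse (by simp [HIT_rowW_len]; omega)]
        rw [List.length_drop, HIT_rowW_len, List.getElem?_drop]
        have e : J + 1 + (o - (J + 1) - 1 - (j1 - (J + 1))) = j2 := by omega
        rw [e, HIT_rowW R o _ j2 hj2]
        have e2 : A - (A1 + 1) = A2 := by omega
        rw [e2])
    exact ⟨fun β hβ => hacc.1 β (hr.1 β hβ), fun hf => hacc.2 (hr.2 hf)⟩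

theorem HIT_marg (R c : ℕ) (h : marg R c = true) : c < 2 ^ (R + 4) := by
  unfold marg at h
  simp only [Bool.and_eq_true, Bool.or_eq_true, beq_iff_eq] at h
  have h2 := h.2
  rw [Nat.shiftRight_eq_div_pow] at h2
  have h3 : c / 2 ^ (R + 1) < 8 := by rcases h2 with h2 | h2 <;> omega
  have h4 := (Nat.div_lt_iff_lt_mul (by positivity)).1 h3
  calc c < 8 * 2 ^ (R + 1) := h4
    _ = 2 ^ (R + 4) := by ring

theorem HIT_dec (R o W : ℕ) (h4 : EXT_stmt) (ht : Tab R o) (hW : 5 * R + 20 ≤ W) (j : ℕ) (hj : j < o) (i : ℤ)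
    (hS : Sf R o W j i = true) : ∃ (A : ℕ) (B : ℤ), i = A * W + B ∧ -(R : ℤ) ≤ B ∧ B < (W : ℤ) - R ∧
      wv R (cell R o j A) B = true ∧ (4 ≤ B → wv R (cell R o j (A + 1)) (B - W) = true) := by
  have hi : 0 ≤ i := by
    unfold Sf at hS
    simp only [Bool.and_eq_true, decide_eq_true_eq] at hS
    exact hS.1
  have hWp : (0 : ℤ) < W := by omega
  have hRi : (0 : ℤ) ≤ i + R := by omega
  have hd0 : 0 ≤ (i + R) / (W : ℤ) := Int.ediv_nonneg hRi hWp.le
  have hmod := Int.emod_add_mul_ediv (i + R) (W : ℤ)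
  have hm0 := Int.emod_nonneg (i + R) hWp.ne'
  have hm1 := Int.emod_lt_of_pos (i + R) hWp
  obtain ⟨A, hA⟩ : ∃ A : ℕ, (A : ℤ) = (i + R) / (W : ℤ) := ⟨((i + R) / (W : ℤ)).toNat, Int.toNat_of_nonneg hd0⟩
  rw [← hA] at hmod
  have e1 : i = A * W + (i - A * W) := by ring
  have b1 : -(R : ℤ) ≤ i - A * W := by nlinarith
  have b2 : i - A * W < (W : ℤ) - R := by nlinarith
  refine ⟨A, i - A * W, e1, b1, b2, ?_, ?_⟩
  · rw [← h4 R o W ht (by omega) j hj A (i - A * W) (by omega) b2, ← e1]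
    exact hS
  · intro hB
    rw [← h4 R o W ht (by omega) j hj (A + 1) (i - A * W - W) (by omega) (by omega)]
    have e2 : ((A + 1 : ℕ) : ℤ) * W + (i - A * W - W) = i := by push_cast; ring
    rw [e2]
    exact hS

theorem HIT_mark (h2 : BDN_stmt) (h3 : WID_stmt) (R c d : ℕ) (hc : c < 2 ^ (R + 4)) (hd : d < 2 ^ (R + 4))
    (ε : ℕ) (hε : ε ≤ 1) (β : ℕ) (hβ : β < 2 * R + 8) (B1 B2 : ℤ) (hB : B1 + B2 = (β : ℤ) - 2 * R - 1 + ε)
    (w1 : wv R c B1 = true) (w2 : wv R d B2 = true) :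
    HIT_mk (fm R) ε β (mkW R c) (mkW R d) ∨ HIT_mk (fm R) ε β (mkW R d) (mkW R c) := by
  have hM : (fm R).testBit β = true := by
    unfold fm
    rw [Nat.testBit_two_pow_sub_one]
    simp [hβ]
  have key : ∀ (c d : ℕ), c < 2 ^ (R + 4) → d < 2 ^ (R + 4) → ∀ B1 B2 : ℤ,
      B1 + B2 = (β : ℤ) - 2 * R - 1 + ε → wv R c B1 = true → wv R d B2 = true → -(R : ℤ) ≤ B1 → B1 ≤ 3 →
      HIT_mk (fm R) ε β (mkW R c) (mkW R d) := by
    intro c d hc hd B1 B2 hB w1 w2 hl hu
    refine ⟨hM, Or.inl ⟨(3 - B1).toNat, ?_, ?_⟩⟩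
    · show (3 - B1).toNat ∈ bitsDown R (R + 4) c
      rw [(h2 R c hc).2.1]
      refine ⟨by omega, ?_⟩
      unfold wv at w1
      rw [if_neg (by omega), if_neg (by omega)] at w1
      have e : R + 3 - (3 - B1).toNat = (B1 + R).toNat := by omega
      rw [e]
      exact w1
    · show (wide R d).testBit (β + (3 - B1).toNat + ε) = true
      rw [(h3 R d hd _ (by omega)).1]
      have e : ((β + (3 - B1).toNat + ε : ℕ) : ℤ) - 2 * R - 4 = B2 := by
        push_cast
        have : ((3 - B1).toNat : ℤ) = 3 - B1 := Int.toNat_of_nonneg (by omega)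
        omega
      rw [e]
      exact w2
  by_cases hb1 : -(R : ℤ) ≤ B1 ∧ B1 ≤ 3
  · left
    exact key c d hc hd B1 B2 hB w1 w2 hb1.1 hb1.2
  by_cases hb2 : -(R : ℤ) ≤ B2 ∧ B2 ≤ 3
  · right
    exact key d c hd hc B2 B1 (by omega) w2 w1 hb2.1 hb2.2
  left
  refine ⟨hM, Or.inr ?_⟩
  rcases lt_or_ge 3 B1 with g | g
  · left
    have g2 : B2 < -(R : ℤ) := by
      by_contra hcon
      push Not at hcon
      exact hb2 ⟨hcon, by omega⟩
    unfold wv at w1 w2
    rw [if_neg (by omega), if_pos g] at w1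
    rw [if_pos g2] at w2
    exact ⟨w1, w2⟩
  · right
    have g1 : B1 < -(R : ℤ) := by
      by_contra hcon
      push Not at hcon
      exact hb1 ⟨hcon, g⟩
    have g2 : 3 < B2 := by
      by_contra hcon
      push Not at hcon
      exact hb2 ⟨by omega, hcon⟩
    unfold wv at w1 w2
    rw [if_pos g1] at w1
    rw [if_neg (by omega), if_pos g2] at w2
    exact ⟨w1, w2⟩

theorem HIT_al (h2 : BDN_stmt) (R c : ℕ) (hc : c < 2 ^ (R + 4)) (B : ℤ) (w : wv R c B = true) :
    (mkW R c).al ≠ [] := by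
  have hex : ∃ b, b ≤ R + 3 ∧ c.testBit b = true := by
    unfold wv at w
    split_ifs at w with a1 a2
    · exact ⟨0, by omega, w⟩
    · exact ⟨R + 3, le_refl _, w⟩
    · exact ⟨(B + R).toNat, by omega, w⟩
  obtain ⟨b, hb, hb'⟩ := hex
  have hm : R + 3 - b ∈ bitsDown R (R + 4) c := by
    rw [(h2 R c hc).2.1]
    refine ⟨by omega, ?_⟩
    have e : R + 3 - (R + 3 - b) = b := by omega
    rw [e]; exact hb'
  show bitsDown R (R + 4) c ≠ []
  intro h0
  rw [h0] at hm
  simp at hm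

theorem HIT_right (R c : ℕ) (B : ℤ) (w : wv R c B = true) (hB : 4 ≤ B) : (mkW R c).r = true := by
  unfold wv at w
  rw [if_neg (by omega), if_pos (by omega)] at w
  exact w

theorem HIT (h1 : CVL_stmt) (h2 : BDN_stmt) (h3 : WID_stmt) (h4 : EXT_stmt) : HIT_stmt := by
  intro R o W X A J ht hW hJ hAX
  have hlt : ∀ j < o, ∀ A, cell R o j A < 2 ^ (R + 4) := fun j hj A => HIT_marg R _ (ht.hmarg j hj A)
  have hR8 := ht.hR
  have ho7 := ht.ho
  have hWp : (0 : ℤ) < W := by omega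
  refine ⟨?_, ?_⟩
  · intro β hβ hbit q hq
    obtain ⟨⟨j1, i1⟩, ⟨j2, i2⟩⟩ := q
    obtain ⟨hj1, hj2, hS1, hS2, _, ε, hε, hj, hi⟩ := hq
    simp only at hj1 hj2 hS1 hS2 hj hi
    obtain ⟨A1, B1, e1, l1, u1, w1, x1⟩ := HIT_dec R o W h4 ht hW j1 hj1 i1 hS1
    obtain ⟨A2, B2, e2, l2, u2, w2, x2⟩ := HIT_dec R o W h4 ht hW j2 hj2 i2 hS2
    -- the two cases
    have hε' : (ε : ℤ) = 0 ∨ (ε : ℤ) = 1 := by omega
    have hkey : ((A1 : ℤ) + A2 + ε - A) * W = (β : ℤ) - 2 * R - 1 + ε - B1 - B2 := by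
      rw [e1, e2] at hi
      linear_combination hi
    have hlo : -2 < (A1 : ℤ) + A2 + ε - A := by
      by_contra hcon
      push Not at hcon
      have : ((A1 : ℤ) + A2 + ε - A) * W ≤ -2 * W := by nlinarith
      omega
    have hhi : (A1 : ℤ) + A2 + ε - A < 1 := by
      by_contra hcon
      push Not at hcon
      have : (1 : ℤ) * W ≤ ((A1 : ℤ) + A2 + ε - A) * W := by nlinarith
      omega
    have hex : ∃ (A1' A2' : ℕ) (B1' B2' : ℤ), A1' + A2' + ε = A ∧
        B1' + B2' = (β : ℤ) - 2 * R - 1 + ε ∧ wv R (cell R o j1 A1') B1' = true ∧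
        wv R (cell R o j2 A2') B2' = true := by
      have hcase : (A1 : ℤ) + A2 + ε - A = 0 ∨ (A1 : ℤ) + A2 + ε - A = -1 := by omega
      rcases hcase with hc | hc
      · rw [hc] at hkey
        exact ⟨A1, A2, B1, B2, by omega, by omega, w1, w2⟩
      · rw [hc] at hkey
        rcases le_or_gt 4 B2 with hb | hb
        · exact ⟨A1, A2 + 1, B1, B2 - W, by omega, by omega, w1, x2 hb⟩
        · exact ⟨A1 + 1, A2, B1 - W, B2, by omega, by omega, x1 (by omega), w2⟩
    obtain ⟨A1', A2', B1', B2', hA', hB', w1', w2'⟩ := hex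
    rcases HIT_mark h2 h3 R _ _ (hlt j1 hj1 A1') (hlt j2 hj2 A2') ε hε β hβ B1' B2' hB' w1' w2' with hm | hm
    · have := (HIT_pair h1 R o X A J hJ hAX A1' A2' j1 j2 ε hε hj1 hj2 hj hA').1 β hm
      rw [this] at hbit
      exact absurd hbit (by simp)
    · have := (HIT_pair h1 R o X A J hJ hAX A2' A1' j2 j1 ε hε hj2 hj1 (by omega) (by omega)).1 β hm
      rw [this] at hbit
      exact absurd hbit (by simp)
  · intro hbit x hx1 hx2 q hq
    obtain ⟨⟨j1, i1⟩, ⟨j2, i2⟩⟩ := q
    obtain ⟨hj1, hj2, hS1, hS2, _, ε, hε, hj, hi⟩ := hq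
    simp only at hj1 hj2 hS1 hS2 hj hi
    obtain ⟨A1, B1, e1, l1, u1, w1, y1⟩ := HIT_dec R o W h4 ht hW j1 hj1 i1 hS1
    obtain ⟨A2, B2, e2, l2, u2, w2, y2⟩ := HIT_dec R o W h4 ht hW j2 hj2 i2 hS2
    have hε' : (ε : ℤ) = 0 ∨ (ε : ℤ) = 1 := by omega
    have hkey : ((A1 : ℤ) + A2 + ε - A) * W = x + ε - B1 - B2 := by
      rw [e1, e2] at hi
      linear_combination hi
    have hlo : -2 < (A1 : ℤ) + A2 + ε - A := by
      by_contra hcon
      push Not at hcon
      have : ((A1 : ℤ) + A2 + ε - A) * W ≤ -2 * W := by nlinarith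
      omega
    have hhi : (A1 : ℤ) + A2 + ε - A < 1 := by
      by_contra hcon
      push Not at hcon
      have : (1 : ℤ) * W ≤ ((A1 : ℤ) + A2 + ε - A) * W := by nlinarith
      omega
    have hcase : (A1 : ℤ) + A2 + ε - A = 0 ∨ (A1 : ℤ) + A2 + ε - A = -1 := by omega
    rcases hcase with hc | hc
    · rw [hc] at hkey
      rcases le_or_gt 4 B2 with hb | hb
      · have := (HIT_pair h1 R o X A J hJ hAX A1 A2 j1 j2 ε hε hj1 hj2 hj (by omega)).2
          ⟨HIT_al h2 R _ (hlt j1 hj1 A1) B1 w1, HIT_right R _ B2 w2 hb⟩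
        rw [this] at hbit
        exact absurd hbit (by simp)
      · have := (HIT_pair h1 R o X A J hJ hAX A2 A1 j2 j1 ε hε hj2 hj1 (by omega) (by omega)).2
          ⟨HIT_al h2 R _ (hlt j2 hj2 A2) B2 w2, HIT_right R _ B1 w1 (by omega)⟩
        rw [this] at hbit
        exact absurd hbit (by simp)
    · rw [hc] at hkey
      have := (HIT_pair h1 R o X A J hJ hAX (A1 + 1) A2 j1 j2 ε hε hj1 hj2 hj (by omega)).2
        ⟨HIT_al h2 R _ (hlt j1 hj1 (A1 + 1)) (B1 - W) (y1 (by omega)), HIT_right R _ B2 w2 (by omega)⟩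
      rw [this] at hbit
      exact absurd hbit (by simp)

end Pool.Agent.UL
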