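import Pool.Agent.helper7.UL.SpecN

set_option autoImplicit false

namespace Pool.Agent.UL

open Pointwise

theorem NPL_indep {α : Type} (t : Finset (α → ℕ)) (h : LinearIndepOn ℕ id (t : Set (α → ℕ))) :
    LinearIndependent ℚ (fun g : t => (fun i => ((g.1 i : ℕ) : ℚ) : α → ℚ)) := by
  rw [← LinearIndependent.iff_fractionRing ℤ ℚ, Fintype.linearIndependent_iff]
  intro f hf g
  have h' : LinearIndependent ℕ (fun x : t => (x.1 : α → ℕ)) := h
  rw [Fintype.linearIndependent_iffₛ] at h'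
  have key := h' (fun g => (f g).toNat) (fun g => (-f g).toNat) ?_ g
  · omega
  · funext i
    have hi := congrFun hf i
    simp only [Finset.sum_apply, Pi.smul_apply, Pi.zero_apply] at hi ⊢
    simp only [zsmul_eq_mul, smul_eq_mul] at hi ⊢
    have e : (∑ x : t, ((f x).toNat : ℚ) * (x.1 i : ℚ)) - ∑ x : t, ((-f x).toNat : ℚ) * (x.1 i : ℚ) = 0 := by
      rw [← Finset.sum_sub_distrib, ← hi]
      apply Finset.sum_congr rfl
      intro x _
      have e2 : (((f x).toNat : ℤ) : ℚ) - (((-f x).toNat : ℤ) : ℚ) = (f x : ℚ) := by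
        rw [← Int.cast_sub, Int.toNat_sub_toNat_neg]
      rw [← sub_mul]
      push_cast at e2
      rw [e2]
    have e3 : ((∑ x : t, (f x).toNat * x.1 i : ℕ) : ℚ) = ((∑ x : t, (-f x).toNat * x.1 i : ℕ) : ℚ) := by
      push_cast
      linarith
    exact_mod_cast e3

/-- dual integer forms -/
theorem NPL_dual {α : Type} [Fintype α] (t : Finset (α → ℕ)) (h : LinearIndepOn ℕ id (t : Set (α → ℕ))) :
    ∃ (N : ℕ) (m : t → α → ℤ), 0 < N ∧ ∀ g g' : t, ∑ i, m g i * (g'.1 i : ℤ) = if g = g' then (N : ℤ) else 0 := by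
  classical
  have hli := NPL_indep t h
  have hinj := linearIndependent_iff_injective_fintypeLinearCombination.1 hli
  obtain ⟨L, hL⟩ := LinearMap.exists_leftInverse_of_injective _ (LinearMap.ker_eq_bot.2 hinj)
  have hLg : ∀ g' g : t, L (fun i => ((g'.1 i : ℕ) : ℚ)) g = if g = g' then 1 else 0 := by
    intro g' g
    have := LinearMap.congr_fun hL (Pi.single g' 1)
    rw [LinearMap.comp_apply, Fintype.linearCombination_apply_single, one_smul, LinearMap.id_apply] at this
    rw [this, Pi.single_apply]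
  have hexp : ∀ (x : α → ℚ) (g : t), L x g = ∑ i, L (Pi.single i 1) g * x i := by
    intro x g
    conv_lhs => rw [← Finset.univ_sum_single x]
    rw [map_sum, Finset.sum_apply]
    apply Finset.sum_congr rfl
    intro i _
    have : (Pi.single i (x i) : α → ℚ) = (x i) • Pi.single i (1 : ℚ) := by
      rw [← Pi.single_smul, smul_eq_mul, mul_one]
    rw [this, map_smul, Pi.smul_apply, smul_eq_mul, mul_comm]
  -- common denominator
  have hden : ∀ (g : t) (i : α), (L (Pi.single i 1) g).den ∣ ∏ p : t × α, (L (Pi.single p.2 1) p.1).den :=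
    fun g i => Finset.dvd_prod_of_mem (fun p : t × α => (L (Pi.single p.2 1) p.1).den) (Finset.mem_univ (g, i))
  have hpos : 0 < ∏ p : t × α, (L (Pi.single p.2 1) p.1).den := Finset.prod_pos fun p _ => Rat.den_pos _
  generalize hN : (∏ p : t × α, (L (Pi.single p.2 1) p.1).den) = N at hden hpos
  have hm : ∀ (g : t) (i : α), ∃ k : ℤ, (k : ℚ) = N * L (Pi.single i 1) g := by
    intro g i
    obtain ⟨c, hc⟩ := hden g i
    refine ⟨c * (L (Pi.single i 1) g).num, ?_⟩
    rw [hc]
    push_cast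
    have hd : ((L (Pi.single i 1) g).den : ℚ) ≠ 0 := by
      exact_mod_cast (Rat.den_pos _).ne'
    have := Rat.mul_den_eq_num (L (Pi.single i 1) g)
    rw [← this]
    ring
  choose m hm using hm
  refine ⟨N, m, hpos, ?_⟩
  intro g g'
  have e : ((∑ i, m g i * (g'.1 i : ℤ) : ℤ) : ℚ) = ((if g = g' then (N : ℤ) else 0 : ℤ) : ℚ) := by
    push_cast
    have := hexp (fun i => ((g'.1 i : ℕ) : ℚ)) g
    rw [hLg] at this
    have e1 : ∀ i, (m g i : ℚ) * (g'.1 i : ℚ) = N * (L (Pi.single i 1) g * (g'.1 i : ℚ)) := by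
      intro i
      rw [hm]; ring
    simp_rw [e1]
    rw [← Finset.mul_sum, ← this]
    split_ifs <;> simp
  exact_mod_cast e

theorem NPL : NPL_stmt := by
  classical
  intro α _ s hs
  rw [isProperLinearSet_iff] at hs
  obtain ⟨a, t, ht, rfl⟩ := hs
  obtain ⟨N, m, hN, hm⟩ := NPL_dual t ht
  have hmem : ∀ x : α → ℕ, x ∈ (a +ᵥ (AddSubmonoid.closure (t : Set (α → ℕ)) : Set (α → ℕ))) ↔
      ∃ c : t → ℕ, x = a + ∑ g : t, c g • g.1 := by
    intro x
    rw [Set.mem_vadd_set]
    constructor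
    · rintro ⟨y, hy, rfl⟩
      rw [SetLike.mem_coe, AddSubmonoid.mem_closure_finset'] at hy
      obtain ⟨c, rfl⟩ := hy
      exact ⟨c, rfl⟩
    · rintro ⟨c, rfl⟩
      refine ⟨∑ g : t, c g • g.1, ?_, rfl⟩
      rw [SetLike.mem_coe, AddSubmonoid.mem_closure_finset']
      exact ⟨c, rfl⟩
  refine ⟨t ⊕ (α ⊕ α), inferInstance,
    Sum.elim (fun g i => m g i)
      (Sum.elim (fun i j => (if j = i then (N : ℤ) else 0) - ∑ g : t, m g j * (g.1 i : ℤ))
        (fun i j => -((if j = i then (N : ℤ) else 0) - ∑ g : t, m g j * (g.1 i : ℤ)))),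
    Sum.elim (fun g => -∑ j, m g j * (a j : ℤ))
      (Sum.elim (fun i => -∑ j, ((if j = i then (N : ℤ) else 0) - ∑ g : t, m g j * (g.1 i : ℤ)) * (a j : ℤ))
        (fun i => ∑ j, ((if j = i then (N : ℤ) else 0) - ∑ g : t, m g j * (g.1 i : ℤ)) * (a j : ℤ))),
    fun _ => N,
    {f | (∀ g : t, (f (Sum.inl g)).1 = true ∧ (f (Sum.inl g)).2 = 0) ∧ ∀ i, (f (Sum.inr i)).1 = true},
    fun _ => hN, ?_⟩
  intro x
  rw [hmem]
  -- the values of the forms
  have hval : ∀ g : t, (∑ j, m g j * (x j : ℤ)) + -∑ j, m g j * (a j : ℤ) = ∑ j, m g j * ((x j : ℤ) - a j) := by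
    intro g
    rw [← sub_eq_add_neg, ← Finset.sum_sub_distrib]
    exact Finset.sum_congr rfl fun j _ => by ring
  have hE : ∀ i : α, (∑ j, ((if j = i then (N : ℤ) else 0) - ∑ g : t, m g j * (g.1 i : ℤ)) * (x j : ℤ)) +
      -(∑ j, ((if j = i then (N : ℤ) else 0) - ∑ g : t, m g j * (g.1 i : ℤ)) * (a j : ℤ)) =
      N * ((x i : ℤ) - a i) - ∑ g : t, (∑ j, m g j * ((x j : ℤ) - a j)) * (g.1 i : ℤ) := by
    intro i
    rw [← sub_eq_add_neg, ← Finset.sum_sub_distrib]
    have e1 : ∀ j, ((if j = i then (N : ℤ) else 0) - ∑ g : t, m g j * (g.1 i : ℤ)) * (x j : ℤ) -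
        ((if j = i then (N : ℤ) else 0) - ∑ g : t, m g j * (g.1 i : ℤ)) * (a j : ℤ) =
        (if j = i then (N : ℤ) * ((x j : ℤ) - a j) else 0) -
          ∑ g : t, m g j * ((x j : ℤ) - a j) * (g.1 i : ℤ) := by
      intro j
      have e2 : ∑ g : t, m g j * ((x j : ℤ) - a j) * (g.1 i : ℤ) =
          (∑ g : t, m g j * (g.1 i : ℤ)) * ((x j : ℤ) - a j) := by
        rw [Finset.sum_mul]
        exact Finset.sum_congr rfl fun g _ => by ring
      rw [e2]
      split_ifs <;> ring
    simp_rw [e1]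
    rw [Finset.sum_sub_distrib, Finset.sum_ite_eq' Finset.univ i (fun j => (N : ℤ) * ((x j : ℤ) - a j)),
      if_pos (Finset.mem_univ i), Finset.sum_comm]
    simp_rw [Finset.sum_mul]
  have hNZ : (0 : ℤ) < N := by exact_mod_cast hN
  constructor
  · rintro ⟨c, rfl⟩
    -- values at a point of the set
    have hv : ∀ g : t, ∑ j, m g j * (((a + ∑ g : t, c g • g.1) j : ℕ) - (a j : ℤ)) = N * c g := by
      intro g
      have e1 : ∀ j, m g j * (((a + ∑ g : t, c g • g.1) j : ℕ) - (a j : ℤ)) =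
          ∑ g' : t, c g' * (m g j * (g'.1 j : ℤ)) := by
        intro j
        simp only [Pi.add_apply, Finset.sum_apply, Pi.smul_apply, smul_eq_mul]
        push_cast
        rw [add_sub_cancel_left, Finset.mul_sum]
        exact Finset.sum_congr rfl fun g' _ => by ring
      simp_rw [e1]
      rw [Finset.sum_comm]
      have e2 : ∀ g' : t, ∑ j, (c g' : ℤ) * (m g j * (g'.1 j : ℤ)) = if g = g' then (c g' : ℤ) * N else 0 := by
        intro g'
        rw [← Finset.mul_sum, hm g g']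
        split_ifs <;> ring
      simp_rw [e2]
      rw [Finset.sum_ite_eq, if_pos (Finset.mem_univ g)]
      ring
    have hE0 : ∀ i : α, (N : ℤ) * (((a + ∑ g : t, c g • g.1) i : ℕ) - (a i : ℤ)) -
        ∑ g : t, (∑ j, m g j * (((a + ∑ g : t, c g • g.1) j : ℕ) - (a j : ℤ))) * (g.1 i : ℤ) = 0 := by
      intro i
      simp_rw [hv]
      simp only [Pi.add_apply, Finset.sum_apply, Pi.smul_apply, smul_eq_mul]
      push_cast
      rw [add_sub_cancel_left, Finset.mul_sum, ← Finset.sum_sub_distrib]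
      exact Finset.sum_eq_zero fun g _ => by ring
    refine ⟨?_, ?_⟩
    · intro g
      simp only [Sum.elim_inl]
      rw [hval, hv]
      refine ⟨?_, ?_⟩
      · rw [decide_eq_true_eq]
        positivity
      · exact Int.mul_emod_right _ _
    · rintro (i | i)
      · simp only [Sum.elim_inr, Sum.elim_inl]
        rw [hE, hE0]
        simp
      · simp only [Sum.elim_inr]
        have e : (∑ j, -((if j = i then (N : ℤ) else 0) - ∑ g : t, m g j * (g.1 i : ℤ)) *
            (((a + ∑ g : t, c g • g.1) j : ℕ) : ℤ)) +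
            ∑ j, ((if j = i then (N : ℤ) else 0) - ∑ g : t, m g j * (g.1 i : ℤ)) * (a j : ℤ) =
            -((∑ j, ((if j = i then (N : ℤ) else 0) - ∑ g : t, m g j * (g.1 i : ℤ)) *
            (((a + ∑ g : t, c g • g.1) j : ℕ) : ℤ)) +
            -∑ j, ((if j = i then (N : ℤ) else 0) - ∑ g : t, m g j * (g.1 i : ℤ)) * (a j : ℤ)) := by
          simp_rw [neg_mul, Finset.sum_neg_distrib]
          ring
        rw [e, hE, hE0]
        simp
  · rintro ⟨h1, h2⟩
    have hg : ∀ g : t, 0 ≤ ∑ j, m g j * ((x j : ℤ) - a j) ∧ (∑ j, m g j * ((x j : ℤ) - a j)) % (N : ℤ) = 0 := by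
      intro g
      have := h1 g
      simp only [Sum.elim_inl] at this
      rw [hval] at this
      exact ⟨of_decide_eq_true this.1, this.2⟩
    have hi : ∀ i : α, (N : ℤ) * ((x i : ℤ) - a i) - ∑ g : t, (∑ j, m g j * ((x j : ℤ) - a j)) * (g.1 i : ℤ) = 0 := by
      intro i
      have p1 := h2 (Sum.inl i)
      have p2 := h2 (Sum.inr i)
      simp only [Sum.elim_inr, Sum.elim_inl] at p1
      rw [hE] at p1
      have q1 := of_decide_eq_true p1
      simp only [Sum.elim_inr] at p2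
      have e : (∑ j, -((if j = i then (N : ℤ) else 0) - ∑ g : t, m g j * (g.1 i : ℤ)) * (x j : ℤ)) +
            ∑ j, ((if j = i then (N : ℤ) else 0) - ∑ g : t, m g j * (g.1 i : ℤ)) * (a j : ℤ) =
            -((∑ j, ((if j = i then (N : ℤ) else 0) - ∑ g : t, m g j * (g.1 i : ℤ)) * (x j : ℤ)) +
            -∑ j, ((if j = i then (N : ℤ) else 0) - ∑ g : t, m g j * (g.1 i : ℤ)) * (a j : ℤ)) := by
          simp_rw [neg_mul, Finset.sum_neg_distrib]
          ring
      rw [e, hE] at p2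
      have q2 := of_decide_eq_true p2
      omega
    have hc : ∀ g : t, ∃ c : ℕ, ∑ j, m g j * ((x j : ℤ) - a j) = N * c := by
      intro g
      obtain ⟨k, hk⟩ := Int.dvd_of_emod_eq_zero (hg g).2
      have hk0 : 0 ≤ k := by
        have := (hg g).1
        rw [hk] at this
        exact nonneg_of_mul_nonneg_right this hNZ
      exact ⟨k.toNat, by rw [hk, Int.toNat_of_nonneg hk0]⟩
    choose c hc using hc
    refine ⟨c, ?_⟩
    funext i
    have e := hi i
    simp_rw [hc] at e
    have e2 : ∑ g : t, (N : ℤ) * (c g : ℤ) * (g.1 i : ℤ) = N * ∑ g : t, (c g : ℤ) * (g.1 i : ℤ) := by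
      rw [Finset.mul_sum]
      exact Finset.sum_congr rfl fun g _ => by ring
    rw [e2, ← mul_sub] at e
    have e3 : (x i : ℤ) - a i - ∑ g : t, (c g : ℤ) * (g.1 i : ℤ) = 0 :=
      (mul_eq_zero.1 e).resolve_left hNZ.ne'
    have e4 : (x i : ℤ) = ((a + ∑ g : t, c g • g.1) i : ℕ) := by
      simp only [Pi.add_apply, Finset.sum_apply, Pi.smul_apply, smul_eq_mul]
      push_cast
      linarith
    exact_mod_cast e4

end Pool.Agent.UL
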