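import Pool.Agent.helper7.UL.Spec

set_option autoImplicit false

namespace Pool.Agent.UL

open Finset

theorem RUN_mrow (h1 : ROW_stmt) (R o : ℕ) (ho : 1 ≤ o) (A : ℕ) : mrow R (rows R o A).1 = rowW R o A := by
  unfold mrow rowW
  rw [(h1 R o ho).1 A, List.map_map]
  rfl

/-- the rows before `A` -/
def RUN_rb (R o X A : ℕ) : List (List Wd) :=
  (List.range (X + 2)).map fun k => if k + 1 ≤ A then rowW R o (A - (k + 1)) else List.replicate o (mkW R 0)

theorem RUN_rb_zero (R o X : ℕ) : RUN_rb R o X 0 = List.replicate (X + 2) (List.replicate o (mkW R 0)) := by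
  apply List.ext_getElem?
  intro k
  unfold RUN_rb
  by_cases hk : k < X + 2
  · rw [List.getElem?_map, List.getElem?_range hk, List.getElem?_replicate, if_pos hk]
    simp only [Option.map_some]
    rw [if_neg (by omega)]
  · rw [List.getElem?_eq_none (by simpa using hk), List.getElem?_eq_none (by simpa using hk)]

theorem RUN_rb_succ (R o X A : ℕ) : RUN_rb R o X (A + 1) = recW R o X A := by
  apply List.ext_getElem?
  intro k
  unfold RUN_rb recW
  by_cases hk : k < X + 2
  · rw [List.getElem?_map, List.getElem?_range hk, List.getElem?_map, List.getElem?_range hk]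
    simp only [Option.map_some]
    have e : A + 1 - (k + 1) = A - k := by omega
    rw [e]
    by_cases hA : k ≤ A
    · rw [if_pos (by omega), if_pos hA]
    · rw [if_neg (by omega), if_neg hA]
  · rw [List.getElem?_eq_none (by simpa using hk), List.getElem?_eq_none (by simpa using hk)]

theorem RUN_rb_take (R o X A : ℕ) : (rowW R o A :: RUN_rb R o X A).take (X + 2) = recW R o X A := by
  apply List.ext_getElem?
  intro k
  by_cases hk : k < X + 2
  · rw [List.getElem?_take_of_lt hk]
    cases k with
    | zero =>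
      unfold recW
      rw [List.getElem?_cons_zero, List.getElem?_map, List.getElem?_range hk]
      simp
    | succ k =>
      unfold recW RUN_rb
      rw [List.getElem?_cons_succ, List.getElem?_map, List.getElem?_range (by omega), List.getElem?_map,
        List.getElem?_range hk]
      rfl
  · rw [List.getElem?_eq_none (by simp; omega), List.getElem?_eq_none (by unfold recW; simpa using hk)]

theorem RUN_run (h1 : ROW_stmt) (R o X : ℕ) (ho : 1 ≤ o) (head : List (List Wd)) : ∀ (n A : ℕ),
    run R o X head n A (rows R o A) (RUN_rb R o X A) = true → ∀ B, A ≤ B → B < A + n →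
      (rows R o B).1.all (marg R) = true ∧ contR R (rows R o B).2 (rows R o B).1 = true ∧
      ∀ J < o, chkJ R o X B J head (recW R o X B) = true
  | 0, A, _, B, hB, hB' => by omega
  | n + 1, A, hr, B, hB, hB' => by
    have e : run R o X head (n + 1) A (rows R o A) (RUN_rb R o X A) =
      ((rows R o A).1.all (marg R) && contR R (rows R o A).2 (rows R o A).1 &&
      (List.range o).all (fun J => chkJ R o X A J head
        ((mrow R (rows R o A).1 :: RUN_rb R o X A).take (X + 2))) &&
      run R o X head n (A + 1) (nextRow R (rows R o A).1 (rows R o A).2, (rows R o A).1)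
        ((mrow R (rows R o A).1 :: RUN_rb R o X A).take (X + 2))) := rfl
    rw [e, RUN_mrow h1 R o ho, RUN_rb_take] at hr
    simp only [Bool.and_eq_true] at hr
    obtain ⟨⟨⟨ha, hb⟩, hc⟩, hd⟩ := hr
    rcases Nat.eq_or_lt_of_le hB with hE | hE
    · subst hE
      refine ⟨ha, hb, ?_⟩
      intro J hJ
      rw [List.all_eq_true] at hc
      exact hc J (List.mem_range.2 hJ)
    · have hd' : run R o X head n (A + 1) (rows R o (A + 1)) (RUN_rb R o X (A + 1)) = true := by
        rw [RUN_rb_succ]
        exact hd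
      exact RUN_run h1 R o X ho head n (A + 1) hd' B hE (by omega)

theorem RUN_contR (R : ℕ) : ∀ (cs ds : List ℕ), contR R cs ds = true → ∀ (k c d : ℕ), cs[k]? = some c →
    ds[k]? = some d → c.testBit (R + 3) = d.testBit 0
  | [], _, _, k, c, d, hc, _ => by simp at hc
  | _ :: _, [], _, k, c, d, _, hd => by simp at hd
  | c' :: cs, d' :: ds, h, k, c, d, hc, hd => by
    have e : contR R (c' :: cs) (d' :: ds) = ((c'.testBit (R + 3) == d'.testBit 0) && contR R cs ds) := rfl
    rw [e] at h
    simp only [Bool.and_eq_true, beq_iff_eq] at h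
    cases k with
    | zero =>
      simp only [List.getElem?_cons_zero, Option.some.injEq] at hc hd
      subst hc hd
      exact h.1
    | succ k =>
      simp only [List.getElem?_cons_succ] at hc hd
      exact RUN_contR R cs ds h.2 k c d hc hd

theorem RUN_marg (R c : ℕ) (h : marg R c = true) : c < 2 ^ (R + 4) := by
  unfold marg at h
  simp only [Bool.and_eq_true, Bool.or_eq_true, beq_iff_eq] at h
  have h2 := h.2
  rw [Nat.shiftRight_eq_div_pow] at h2
  have h3 : c / 2 ^ (R + 1) < 8 := by rcases h2 with h2 | h2 <;> omega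
  have h4 := (Nat.div_lt_iff_lt_mul (by positivity)).1 h3
  calc c < 8 * 2 ^ (R + 1) := h4
    _ = 2 ^ (R + 4) := by ring

/-- the sum of two words in the parts depends only on the residue -/
theorem RUN_ctr (R o X S P A A' J A1 j1 β : ℕ) (hA1 : A1 ≤ X) (hXS : X ≤ S) (hj1 : j1 < o) (hJ : J < o)
    (hA : S + X + 2 ≤ A) (hA' : S + X + 2 ≤ A') (hm : ∃ m, A = A' + m * P)
    (hper : ∀ j < o, ∀ B m, S ≤ B → cell R o j (B + m * P) = cell R o j B) :
    ctr R o A J A1 j1 β = ctr R o A' J A1 j1 β ∧ ctb R o A J A1 j1 = ctb R o A' J A1 j1 := by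
  obtain ⟨m, rfl⟩ := hm
  unfold ctr ctb
  simp only
  have hj2 : J + (if j1 ≤ J then 0 else 1) * o - j1 < o := by split_ifs <;> omega
  have hε : (if j1 ≤ J then 0 else 1) ≤ 1 := by split_ifs <;> omega
  generalize (if j1 ≤ J then 0 else 1) = ε at hj2 hε
  have e : A' + m * P - A1 - ε = (A' - A1 - ε) + m * P := by omega
  rw [e]
  have hc := hper (J + ε * o - j1) hj2 (A' - A1 - ε) m (by omega)
  rw [if_pos (show A1 + ε ≤ A' + m * P by omega), if_pos (show A1 + ε ≤ A' by omega),
    if_pos (show A1 + ε ≤ A' + m * P by omega), if_pos (show A1 + ε ≤ A' by omega),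
    if_pos (show A1 < A' - A1 - ε + m * P ∨ (A1 = A' - A1 - ε + m * P ∧ j1 < J + ε * o - j1) by left; omega),
    if_pos (show A1 < A' - A1 - ε ∨ (A1 = A' - A1 - ε ∧ j1 < J + ε * o - j1) by left; omega),
    if_pos (show A1 < A' - A1 - ε + m * P ∨ (A1 = A' - A1 - ε + m * P ∧ j1 < J + ε * o - j1) by left; omega),
    if_pos (show A1 < A' - A1 - ε ∨ (A1 = A' - A1 - ε ∧ j1 < J + ε * o - j1) by left; omega), hc]
  exact ⟨rfl, rfl⟩

theorem RUN (h1 : ROW_stmt) (h2 : HCV_stmt) : RUN_stmt := by
  intro R o X S P N hchk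
  unfold chk at hchk
  simp only [Bool.and_eq_true, decide_eq_true_eq, beq_iff_eq] at hchk
  obtain ⟨⟨⟨⟨⟨⟨⟨⟨⟨⟨hfirst, hrows⟩, hN⟩, hXS⟩, hX⟩, hS⟩, hR⟩, hP⟩, ho⟩, hodd⟩, hrun⟩ := hchk
  have ho1 : 1 ≤ o := by omega
  have hhead : ((List.range (X + 1)).map fun A => mrow R (rows R o A).1) = headW R o X := by
    unfold headW
    apply List.map_congr_left
    intro A _
    exact RUN_mrow h1 R o ho1 A
  rw [hhead, ← RUN_rb_zero] at hrun
  have hall := RUN_run h1 R o X ho1 (headW R o X) N 0 hrun
  -- periodicity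
  have hrowsP : ∀ A, S ≤ A → rows R o (A + P) = rows R o A := by
    intro A hA
    induction A, hA using Nat.le_induction with
    | base => exact hrows
    | succ A hA ih =>
      have e1 : A + 1 + P = (A + P) + 1 := by omega
      rw [e1]
      show (nextRow R (rows R o (A + P)).1 (rows R o (A + P)).2, (rows R o (A + P)).1) =
        (nextRow R (rows R o A).1 (rows R o A).2, (rows R o A).1)
      rw [ih]
  have hcellP : ∀ j < o, ∀ A, S ≤ A → cell R o j (A + P) = cell R o j A := by
    intro j _ A hA
    unfold cell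
    rw [hrowsP A hA]
  have hper : ∀ j < o, ∀ B m, S ≤ B → cell R o j (B + m * P) = cell R o j B := by
    intro j hj B m hB
    induction m with
    | zero => simp
    | succ m ih =>
      have e : B + (m + 1) * P = (B + m * P) + P := by ring
      rw [e, hcellP j hj _ (by omega), ih]
  -- the table
  have hrowget : ∀ j < o, ∀ A, (rows R o A).1[j]? = some (cell R o j A) := by
    intro j hj A
    have := (h1 R o ho1).1 A
    rw [this, List.getElem?_map, List.getElem?_range hj]
    simp only [Option.map_some]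
  have hmarg0 : ∀ j < o, ∀ A, A < N → marg R (cell R o j A) = true := by
    intro j hj A hA
    have ha := (hall A (by omega) (by omega)).1
    rw [List.all_eq_true] at ha
    exact ha _ (List.mem_of_getElem? (hrowget j hj A))
  have hred : ∀ A, N ≤ A + 1 → ∃ A' m, S ≤ A' ∧ A' < S + P ∧ A = A' + m * P := by
    intro A hA
    refine ⟨S + (A - S) % P, (A - S) / P, by omega, ?_, ?_⟩
    · have := Nat.mod_lt (A - S) (show 0 < P by omega)
      omega
    · have := Nat.mod_add_div (A - S) P
      rw [mul_comm] at this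
      omega
  have hmarg : ∀ j < o, ∀ A, marg R (cell R o j A) = true := by
    intro j hj A
    rcases lt_or_ge A N with hA | hA
    · exact hmarg0 j hj A hA
    · obtain ⟨A', m, hA', hA'', rfl⟩ := hred A (by omega)
      rw [hper j hj A' m hA']
      exact hmarg0 j hj A' (by omega)
  have hcont0 : ∀ j < o, ∀ A, A + 1 < N →
      (cell R o j A).testBit (R + 3) = (cell R o j (A + 1)).testBit 0 := by
    intro j hj A hA
    have ha := (hall (A + 1) (by omega) (by omega)).2.1
    rw [(h1 R o ho1).2.1 A] at ha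
    exact RUN_contR R _ _ ha j _ _ (hrowget j hj A) (hrowget j hj (A + 1))
  have hcont : ∀ j < o, ∀ A, (cell R o j A).testBit (R + 3) = (cell R o j (A + 1)).testBit 0 := by
    intro j hj A
    rcases lt_or_ge (A + 1) N with hA | hA
    · exact hcont0 j hj A hA
    · obtain ⟨A', m, hA', hA'', rfl⟩ := hred A hA
      have e : A' + m * P + 1 = (A' + 1) + m * P := by omega
      rw [e, hper j hj A' m hA', hper j hj (A' + 1) m (by omega)]
      exact hcont0 j hj A' (by omega)
  have htab : Tab R o := ⟨hR, ho, hodd, hmarg, hcont, hfirst⟩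
  have hchkJ : ∀ A < N, ∀ J < o, chkJ R o X A J (headW R o X) (recW R o X A) = true :=
    fun A hA J hJ => (hall A (by omega) (by omega)).2.2 J hJ
  refine ⟨htab, hcellP, by omega, hX, hchkJ, ?_⟩
  intro A hA J hJ
  -- the representative
  obtain ⟨A', hA'1, hA'2, m, hm⟩ : ∃ A', S + X + 2 ≤ A' ∧ A' < S + X + 2 + P ∧ ∃ m, A = A' + m * P := by
    refine ⟨S + X + 2 + (A - (S + X + 2)) % P, by omega, ?_, (A - (S + X + 2)) / P, ?_⟩
    · have := Nat.mod_lt (A - (S + X + 2)) (show 0 < P by omega)
      omega
    · have := Nat.mod_add_div (A - (S + X + 2)) P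
      rw [mul_comm] at this
      omega
  have hA'N : A' < N := by omega
  have hsum1 : ∀ β, ∑ A1 ∈ range (X + 1), ∑ j1 ∈ range o, ctr R o A J A1 j1 β =
      ∑ A1 ∈ range (X + 1), ∑ j1 ∈ range o, ctr R o A' J A1 j1 β := by
    intro β
    apply Finset.sum_congr rfl
    intro A1 hA1
    apply Finset.sum_congr rfl
    intro j1 hj1
    rw [Finset.mem_range] at hA1 hj1
    exact (RUN_ctr R o X S P A A' J A1 j1 β (by omega) hXS hj1 hJ (by omega) hA'1 ⟨m, hm⟩ hper).1
  have hsum2 : ∑ A1 ∈ range (X + 1), ∑ j1 ∈ range o, ctb R o A J A1 j1 =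
      ∑ A1 ∈ range (X + 1), ∑ j1 ∈ range o, ctb R o A' J A1 j1 := by
    apply Finset.sum_congr rfl
    intro A1 hA1
    apply Finset.sum_congr rfl
    intro j1 hj1
    rw [Finset.mem_range] at hA1 hj1
    exact (RUN_ctr R o X S P A A' J A1 j1 0 (by omega) hXS hj1 hJ (by omega) hA'1 ⟨m, hm⟩ hper).2
  have hck := hchkJ A' hA'N J hJ
  have hreq : req R A' J = (fm R, true) := by
    unfold req
    rw [if_neg (by omega), if_neg (by omega), if_neg (by omega)]
  unfold chkJ at hck
  simp only [hreq] at hck
  have hcov := fun β hβ => h2 R o X A' J β hR (fun j hj B => RUN_marg R _ (hmarg j hj B)) hJ hβ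
  generalize headCov R o A' J 0 (headW R o X) (recW R o X A') ((0, 0), 0) = acc at hck hcov
  have hfin : fm R ^^^ (acc.1.2 &&& fm R) = 0 ∧ 2 ≤ acc.2 := by
    split_ifs at hck with c1 c2
    · simp only [Bool.true_and, Bool.and_eq_true, beq_iff_eq, Bool.not_eq_true', decide_eq_false_iff_not,
        not_lt] at c1
      exact c1
    · exfalso
      simp only [Bool.and_eq_true, decide_eq_true_eq] at c2
      omega
  have hbits : ∀ β < 2 * R + 8, acc.1.2.testBit β = true := by
    intro β hβ
    have e := hfin.1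
    rw [Nat.xor_eq_zero_iff] at e
    have e2 : (fm R).testBit β = true := by
      unfold fm
      rw [Nat.testBit_two_pow_sub_one]
      simp [hβ]
    rw [e, Nat.testBit_and, Bool.and_eq_true] at e2
    exact e2.1
  refine ⟨?_, ?_⟩
  · intro β hβ
    rw [hsum1]
    refine le_trans ?_ (hcov β hβ).1
    unfold cnt
    rw [if_pos (hbits β hβ)]
  · rw [hsum2]
    exact le_trans hfin.2 (hcov 0 (by omega)).2

end Pool.Agent.UL
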